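import Mathlib

/-!
# Aut(V)-pairs: basic definitions and the structure of the generated semigroup
-/

set_option autoImplicit false

namespace Pool.Agent.Helper91.AP

open Module

variable {F V : Type*} [Field F] [AddCommGroup V] [Module F V]

/-- The elements of a group of automorphisms, as endomorphisms. -/
def GE (G : Subgroup (V ≃ₗ[F] V)) : Set (Module.End F V) :=
  {x | ∃ g ∈ G, x = (g : V →ₗ[F] V)}

/-- The subsemigroup `⟨a, G⟩` of `End V`. -/
def gen (a : Module.End F V) (G : Subgroup (V ≃ₗ[F] V)) : Subsemigroup (Module.End F V) :=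
  Subsemigroup.closure ({a} ∪ GE G)

/-- `(a, G)` is an `Aut(V)`-pair. -/
def IsAutPair (a : Module.End F V) (G : Subgroup (V ≃ₗ[F] V)) : Prop :=
  (gen a G : Set (Module.End F V)) \ GE G = (gen a ⊤ : Set (Module.End F V)) \ GE ⊤

/-- `G` is transitive on the subspaces of dimension `m`. -/
def Trans (G : Subgroup (V ≃ₗ[F] V)) (m : ℕ) : Prop :=
  ∀ U U' : Submodule F V, finrank F U = m → finrank F U' = m →
    ∃ g ∈ G, U.map (g : V →ₗ[F] V) = U'

/-- the monoid of the products of the `a * g` -/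
def CC (a : Module.End F V) (G : Subgroup (V ≃ₗ[F] V)) : Submonoid (Module.End F V) :=
  Submonoid.closure {x | ∃ g ∈ G, x = a * (g : V →ₗ[F] V)}

variable {a : Module.End F V} {G : Subgroup (V ≃ₗ[F] V)}

lemma coe_mul' (g h : V ≃ₗ[F] V) :
    ((g * h : V ≃ₗ[F] V) : V →ₗ[F] V) = (g : V →ₗ[F] V) * (h : V →ₗ[F] V) := rfl

lemma coe_one' : ((1 : V ≃ₗ[F] V) : V →ₗ[F] V) = 1 := rfl

lemma a_mem : a ∈ gen a G := Subsemigroup.subset_closure (Or.inl rfl)

lemma g_mem {g : V ≃ₗ[F] V} (hg : g ∈ G) : (g : V →ₗ[F] V) ∈ gen a G :=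
  Subsemigroup.subset_closure (Or.inr ⟨g, hg, rfl⟩)

lemma gen_mono {G' : Subgroup (V ≃ₗ[F] V)} (h : G ≤ G') : gen a G ≤ gen a G' := by
  refine Subsemigroup.closure_mono (Set.union_subset_union_right _ ?_)
  rintro x ⟨g, hg, rfl⟩
  exact ⟨g, h hg, rfl⟩

lemma ag_mem {g : V ≃ₗ[F] V} (hg : g ∈ G) : a * (g : V →ₗ[F] V) ∈ CC a G :=
  Submonoid.subset_closure ⟨g, hg, rfl⟩

/-- an element of `CC` is `1` or ends with `a * h` -/
lemma cc_right {c : Module.End F V} (hc : c ∈ CC a G) :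
    c = 1 ∨ ∃ c' ∈ CC a G, ∃ h ∈ G, c = c' * (a * (h : V →ₗ[F] V)) := by
  induction hc using Submonoid.closure_induction_right with
  | one => exact Or.inl rfl
  | mul_right x hx y hy ih =>
    obtain ⟨h, hh, rfl⟩ := hy
    exact Or.inr ⟨x, hx, h, hh, rfl⟩

lemma cc_left {c : Module.End F V} (hc : c ∈ CC a G) :
    c = 1 ∨ ∃ c' ∈ CC a G, ∃ h ∈ G, c = (a * (h : V →ₗ[F] V)) * c' := by
  induction hc using Submonoid.closure_induction_left with
  | one => exact Or.inl rfl
  | mul_left x hx y hy ih =>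
    obtain ⟨h, hh, rfl⟩ := hx
    exact Or.inr ⟨y, hy, h, hh, rfl⟩

lemma cc_mul_g {c : Module.End F V} (hc : c ∈ CC a G) {g : V ≃ₗ[F] V} (hg : g ∈ G) :
    c = 1 ∨ c * (g : V →ₗ[F] V) ∈ CC a G := by
  rcases cc_right hc with h | ⟨c', hc', h, hh, rfl⟩
  · exact Or.inl h
  · refine Or.inr ?_
    have h1 : c' * (a * (h : V →ₗ[F] V)) * (g : V →ₗ[F] V) =
        c' * (a * ((h * g : V ≃ₗ[F] V) : V →ₗ[F] V)) := by
      rw [coe_mul', mul_assoc, mul_assoc]
    rw [h1]
    exact (CC a G).mul_mem hc' (ag_mem (G.mul_mem hh hg))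

/-- normal form of the elements of the semigroup -/
lemma gen_form {x : Module.End F V} (hx : x ∈ gen a G) :
    ∃ g ∈ G, ∃ c ∈ CC a G, x = (g : V →ₗ[F] V) * c := by
  induction hx using Subsemigroup.closure_induction with
  | mem x hx =>
    rcases hx with hx | ⟨g, hg, rfl⟩
    · rw [Set.mem_singleton_iff] at hx
      refine ⟨1, G.one_mem, a * ((1 : V ≃ₗ[F] V) : V →ₗ[F] V), ag_mem G.one_mem, ?_⟩
      rw [hx, coe_one', one_mul, mul_one]
    · exact ⟨g, hg, 1, (CC a G).one_mem, (mul_one _).symm⟩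
  | mul x y hx hy ihx ihy =>
    obtain ⟨g, hg, c, hc, rfl⟩ := ihx
    obtain ⟨g', hg', c', hc', rfl⟩ := ihy
    rcases cc_mul_g hc hg' with h | h
    · refine ⟨g * g', G.mul_mem hg hg', c', hc', ?_⟩
      rw [h, mul_one, coe_mul', mul_assoc]
    · refine ⟨g, hg, (c * (g' : V →ₗ[F] V)) * c', (CC a G).mul_mem h hc', ?_⟩
      simp only [mul_assoc]

lemma cc_gen {c : Module.End F V} (hc : c ∈ CC a G) : c = 1 ∨ c ∈ gen a G := by
  induction hc using Submonoid.closure_induction_right with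
  | one => exact Or.inl rfl
  | mul_right x hx y hy ih =>
    obtain ⟨h, hh, rfl⟩ := hy
    right
    rcases ih with h1 | h1
    · rw [h1, one_mul]
      exact (gen a G).mul_mem a_mem (g_mem hh)
    · exact (gen a G).mul_mem h1 ((gen a G).mul_mem a_mem (g_mem hh))

/-- `a * x` is in `CC` -/
lemma a_mul_mem {x : Module.End F V} (hx : x ∈ gen a G) : a * x ∈ CC a G := by
  obtain ⟨g, hg, c, hc, rfl⟩ := gen_form hx
  rw [← mul_assoc]
  exact (CC a G).mul_mem (ag_mem hg) hc

variable [FiniteDimensional F V]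

lemma isUnit_of_coe (g : V ≃ₗ[F] V) : IsUnit ((g : V →ₗ[F] V) : Module.End F V) :=
  ⟨⟨(g : V →ₗ[F] V), (g.symm : V →ₗ[F] V), by ext; simp, by ext; simp⟩, rfl⟩

lemma not_inj (ha : ¬ IsUnit a) : ∃ v, v ≠ 0 ∧ a v = 0 := by
  by_contra hcon
  push Not at hcon
  apply ha
  have h1 : LinearMap.ker a = ⊥ := by
    rw [LinearMap.ker_eq_bot']
    intro m hm
    by_contra h
    exact hcon m h hm
  exact (LinearMap.isUnit_iff_ker_eq_bot a).2 h1

/-- an element of the semigroup is in the group or singular -/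
lemma gen_cases (ha : ¬ IsUnit a) {x : Module.End F V} (hx : x ∈ gen a G) :
    x ∈ GE G ∨ ¬ IsUnit x := by
  obtain ⟨g, hg, c, hc, rfl⟩ := gen_form hx
  rcases cc_right hc with h | ⟨c', hc', h, hh, rfl⟩
  · left
    rw [h, mul_one]
    exact ⟨g, hg, rfl⟩
  · right
    obtain ⟨v, hv, hav⟩ := not_inj ha
    intro hu
    have h1 : LinearMap.ker ((g : V →ₗ[F] V) * (c' * (a * (h : V →ₗ[F] V)))) = ⊥ :=
      (LinearMap.isUnit_iff_ker_eq_bot _).1 hu
    rw [LinearMap.ker_eq_bot'] at h1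
    have h2 := h1 (h.symm v) (by
      simp only [Module.End.mul_apply, LinearEquiv.coe_coe, LinearEquiv.apply_symm_apply, hav,
        map_zero])
    apply hv
    have h3 := congrArg h h2
    simpa using h3

lemma exists_equiv {x : Module.End F V} (hx : IsUnit x) : ∃ g : V ≃ₗ[F] V, x = (g : V →ₗ[F] V) := by
  have h1 := (LinearMap.isUnit_iff_ker_eq_bot x).1 hx
  exact ⟨LinearEquiv.ofInjectiveEndo x (LinearMap.ker_eq_bot.1 h1), by ext; rfl⟩

lemma not_mem_GE {x : Module.End F V} (hx : ¬ IsUnit x) : x ∉ GE (⊤ : Subgroup (V ≃ₗ[F] V)) := by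
  rintro ⟨g, _, rfl⟩
  exact hx (isUnit_of_coe g)

lemma hah_not_unit (ha : ¬ IsUnit a) (h h' : V ≃ₗ[F] V) :
    ¬ IsUnit ((h : V →ₗ[F] V) * a * (h' : V →ₗ[F] V) : Module.End F V) := by
  intro hu
  apply ha
  have h1 := (isUnit_of_coe h).unit
  have e : a = ((h.symm : V →ₗ[F] V) : Module.End F V) *
      ((h : V →ₗ[F] V) * a * (h' : V →ₗ[F] V)) * (h'.symm : V →ₗ[F] V) := by
    ext v
    simp
  rw [e]
  exact ((isUnit_of_coe h.symm).mul hu).mul (isUnit_of_coe h'.symm)

/-- reformulation of the definition -/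
lemma pair_iff (ha : ¬ IsUnit a) :
    IsAutPair a G ↔ ∀ h h' : V ≃ₗ[F] V, (h : V →ₗ[F] V) * a * (h' : V →ₗ[F] V) ∈ gen a G := by
  constructor
  · intro hp h h'
    have h1 : (h : V →ₗ[F] V) * a * (h' : V →ₗ[F] V) ∈
        (gen a ⊤ : Set (Module.End F V)) \ GE ⊤ := by
      refine ⟨?_, not_mem_GE (hah_not_unit ha h h')⟩
      exact (gen a ⊤).mul_mem ((gen a ⊤).mul_mem (g_mem (Subgroup.mem_top _)) a_mem)
        (g_mem (Subgroup.mem_top _))
    unfold IsAutPair at hp
    rw [← hp] at h1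
    exact h1.1
  · intro hp
    unfold IsAutPair
    ext x
    constructor
    · rintro ⟨h1, h2⟩
      refine ⟨gen_mono le_top h1, not_mem_GE ?_⟩
      rcases gen_cases ha h1 with h | h
      · exact absurd h h2
      · exact h
    · rintro ⟨h1, h2⟩
      refine ⟨?_, ?_⟩
      · have key : ∀ c ∈ CC a (⊤ : Subgroup (V ≃ₗ[F] V)),
            c = 1 ∨ ∀ h : V ≃ₗ[F] V, (h : V →ₗ[F] V) * c ∈ gen a G := by
          intro c hc
          induction hc using Submonoid.closure_induction_right with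
          | one => exact Or.inl rfl
          | mul_right x hx y hy ih =>
            obtain ⟨h', _, rfl⟩ := hy
            right
            intro h
            rcases ih with h1 | h1
            · rw [h1, one_mul, ← mul_assoc]
              exact hp h h'
            · have h2 := hp 1 h'
              rw [coe_one', one_mul] at h2
              rw [← mul_assoc]
              exact (gen a G).mul_mem (h1 h) h2
        obtain ⟨g, hg, c, hc, rfl⟩ := gen_form h1
        rcases key c hc with h | h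
        · exfalso
          apply h2
          rw [h, mul_one]
          exact ⟨g, Subgroup.mem_top _, rfl⟩
        · exact h g
      · rintro ⟨g, _, rfl⟩
        exact h2 ⟨g, Subgroup.mem_top _, rfl⟩

end Pool.Agent.Helper91.AP
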