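import Mathlib

/-!
# Linear algebra: generation of `GL` by dilatransvections, extension of isomorphisms
-/

set_option autoImplicit false

namespace Pool.Agent.Helper91.AP

open Module

variable {F W : Type*} [Field F] [AddCommGroup W] [Module F W] [FiniteDimensional F W]

lemma dual_sep {K : Submodule F W} {x : W} (hx : x ∉ K) :
    ∃ f : Dual F W, f x ≠ 0 ∧ ∀ y ∈ K, f y = 0 := by
  obtain ⟨f, hf, hK⟩ := Submodule.exists_dual_map_eq_bot_of_notMem hx inferInstance
  refine ⟨f, hf, fun y hy => ?_⟩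
  have h1 : f y ∈ K.map f := Submodule.mem_map_of_mem hy
  rw [hK] at h1
  simpa using h1

lemma dual_sep2 {K : Submodule F W} {x y : W} (hx : x ∉ K) (hy : y ∉ K) :
    ∃ f : Dual F W, f x = 1 ∧ f y ≠ 0 ∧ ∀ z ∈ K, f z = 0 := by
  have key : ∃ f : Dual F W, f x ≠ 0 ∧ f y ≠ 0 ∧ ∀ z ∈ K, f z = 0 := by
    obtain ⟨f1, h1, hK1⟩ := dual_sep hx
    obtain ⟨f2, h2, hK2⟩ := dual_sep hy
    by_cases hy1 : f1 y = 0
    · by_cases hx2 : f2 x = 0
      · refine ⟨f1 + f2, ?_, ?_, fun z hz => ?_⟩
        · simpa [hx2] using h1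
        · simpa [hy1] using h2
        · simp [hK1 z hz, hK2 z hz]
      · exact ⟨f2, hx2, h2, hK2⟩
    · exact ⟨f1, h1, hy1, hK1⟩
  obtain ⟨f, h1, h2, h3⟩ := key
  refine ⟨(f x)⁻¹ • f, ?_, ?_, fun z hz => ?_⟩
  · simp [h1]
  · simp [h1, h2]
  · simp [h3 z hz]

/-- `GL(W)` is generated by the maps `u ↦ u + f u • e`. -/
theorem gl_gen (H : Subgroup (W ≃ₗ[F] W))
    (hH : ∀ (s : W ≃ₗ[F] W) (f : Dual F W) (e : W), (∀ u, s u = u + f u • e) → s ∈ H)
    (s : W ≃ₗ[F] W) : s ∈ H := by
  induction hn : finrank F W - finrank F (LinearMap.ker ((s : W →ₗ[F] W) - 1)) using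
    Nat.strong_induction_on generalizing s with
  | _ n ih =>
  by_cases hs : s = 1
  · rw [hs]; exact H.one_mem
  · obtain ⟨v, hv⟩ : ∃ v, s v ≠ v := by
      by_contra hcon
      push Not at hcon
      exact hs (LinearEquiv.ext hcon)
    have memk : ∀ (t : W ≃ₗ[F] W) (x : W),
        x ∈ LinearMap.ker ((t : W →ₗ[F] W) - 1) ↔ t x = x := by
      intro t x
      rw [LinearMap.mem_ker, LinearMap.sub_apply, sub_eq_zero]
      rfl
    have hx : s v ∉ LinearMap.ker ((s : W →ₗ[F] W) - 1) := by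
      rw [memk]
      intro h
      exact hv (s.injective h)
    have hy : v ∉ LinearMap.ker ((s : W →ₗ[F] W) - 1) := by
      rw [memk]; exact hv
    obtain ⟨f, h1, h2, h3⟩ := dual_sep2 hx hy
    have hu : IsUnit (1 + f (v - s v)) := by
      rw [map_sub, h1, isUnit_iff_ne_zero]
      simpa using h2
    set τ : W ≃ₗ[F] W := LinearEquiv.dilatransvection hu with hτ
    have hτa : ∀ u, τ u = u + f u • (v - s v) := fun u => LinearEquiv.dilatransvection.apply
    have hτH : τ ∈ H := hH τ f _ hτa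
    have hlt : finrank F (LinearMap.ker ((s : W →ₗ[F] W) - 1)) <
        finrank F (LinearMap.ker (((τ * s : W ≃ₗ[F] W) : W →ₗ[F] W) - 1)) := by
      apply Submodule.finrank_lt_finrank_of_lt
      refine lt_of_le_of_ne ?_ ?_
      · intro x hx
        have h4 := (memk s x).1 hx
        rw [memk, LinearEquiv.mul_apply, h4, hτa, h3 x hx, zero_smul, add_zero]
      · intro heq
        apply hy
        rw [heq, memk, LinearEquiv.mul_apply, hτa, h1, one_smul]
        abel
    have hle : finrank F (LinearMap.ker (((τ * s : W ≃ₗ[F] W) : W →ₗ[F] W) - 1)) ≤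
        finrank F W := Submodule.finrank_le _
    have h5 := ih (finrank F W -
      finrank F (LinearMap.ker (((τ * s : W ≃ₗ[F] W) : W →ₗ[F] W) - 1))) (by omega) (τ * s) rfl
    have h6 := H.mul_mem (H.inv_mem hτH) h5
    rwa [inv_mul_cancel_left] at h6

/-- an isomorphism between subspaces extends to the whole space -/
theorem glue (U U' : Submodule F W) (e : U ≃ₗ[F] U') :
    ∃ θ : W ≃ₗ[F] W, ∀ u : U, θ u = e u := by
  obtain ⟨D, hD⟩ := U.exists_isCompl
  obtain ⟨D', hD'⟩ := U'.exists_isCompl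
  have h1 := Submodule.finrank_add_eq_of_isCompl hD
  have h2 := Submodule.finrank_add_eq_of_isCompl hD'
  have h3 := e.finrank_eq
  have h4 : finrank F D = finrank F D' := by omega
  let e2 : D ≃ₗ[F] D' := LinearEquiv.ofFinrankEq _ _ h4
  refine ⟨(Submodule.prodEquivOfIsCompl U D hD).symm ≪≫ₗ (e.prodCongr e2) ≪≫ₗ
    Submodule.prodEquivOfIsCompl U' D' hD', fun u => ?_⟩
  simp [Submodule.prodEquivOfIsCompl_symm_apply_left]

theorem exists_map_eq (U U' : Submodule F W) (h : finrank F U = finrank F U') :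
    ∃ θ : W ≃ₗ[F] W, U.map (θ : W →ₗ[F] W) = U' := by
  obtain ⟨θ, hθ⟩ := glue U U' (LinearEquiv.ofFinrankEq _ _ h)
  refine ⟨θ, ?_⟩
  apply Submodule.eq_of_le_of_finrank_eq
  · rintro _ ⟨u, hu, rfl⟩
    have h1 := hθ ⟨u, hu⟩
    simp only at h1
    rw [LinearEquiv.coe_coe, h1]
    exact Submodule.coe_mem _
  · rw [LinearEquiv.finrank_map_eq, h]

/-- a complement containing a given vector -/
theorem exists_compl_mem (U : Submodule F W) (x : W) (hx : x ∉ U) :
    ∃ D : Submodule F W, IsCompl U D ∧ x ∈ D := by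
  obtain ⟨C, hC⟩ := (U ⊔ Submodule.span F {x}).exists_isCompl
  have hdis : Disjoint U (Submodule.span F {x}) := by
    rw [Submodule.disjoint_span_singleton]
    intro h
    exact absurd h hx
  refine ⟨Submodule.span F {x} ⊔ C,
    ⟨hdis.disjoint_sup_right_of_disjoint_sup_left hC.disjoint, codisjoint_assoc.mp hC.codisjoint⟩,
    ?_⟩
  exact Submodule.mem_sup_left (Submodule.mem_span_singleton_self x)

/-- `End W` is unit regular -/
theorem unit_regular (x : Module.End F W) :
    ∃ u : W ≃ₗ[F] W, x * (u : W →ₗ[F] W) * x = x := by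
  obtain ⟨C, hC⟩ := (LinearMap.ker x).exists_isCompl
  let e : C ≃ₗ[F] LinearMap.range x := LinearMap.kerComplementEquivRange x hC.symm
  obtain ⟨u, hu⟩ := glue (LinearMap.range x) C e.symm
  refine ⟨u, ?_⟩
  ext v
  have h1 := hu ⟨x v, LinearMap.mem_range_self x v⟩
  simp only at h1
  have h2 : x ((e.symm ⟨x v, LinearMap.mem_range_self x v⟩ : C) : W) = x v := by
    have h3 := e.apply_symm_apply ⟨x v, LinearMap.mem_range_self x v⟩
    have h4 := congrArg Subtype.val h3
    simpa [e] using h4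
  rw [Module.End.mul_apply, Module.End.mul_apply, LinearEquiv.coe_coe, h1, h2]

/-- two maps with the same kernel and the same range -/
theorem exists_factor (a b : Module.End F W) (hk : LinearMap.ker b = LinearMap.ker a)
    (hr : LinearMap.range b = LinearMap.range a) :
    ∃ s : LinearMap.range a ≃ₗ[F] LinearMap.range a, ∀ v,
      (s ⟨a v, LinearMap.mem_range_self a v⟩ : W) = b v := by
  refine ⟨a.quotKerEquivRange.symm ≪≫ₗ Submodule.quotEquivOfEq _ _ hk.symm ≪≫ₗ
    b.quotKerEquivRange ≪≫ₗ LinearEquiv.ofEq _ _ hr, fun v => ?_⟩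
  have h1 : a.quotKerEquivRange.symm ⟨a v, LinearMap.mem_range_self a v⟩ =
      Submodule.Quotient.mk v := by
    rw [LinearEquiv.symm_apply_eq]
    rfl
  simp only [LinearEquiv.trans_apply, h1]
  rfl

end Pool.Agent.Helper91.AP
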