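import Mathlib
import Pool.Agent.Helper91.AP.Basic
import Pool.Agent.Helper91.AP.Gl

/-!
# Aut(V)-pairs: the group on the range of `a`
-/

set_option autoImplicit false

namespace Pool.Agent.Helper91.AP

open Module

variable {F V : Type*} [Field F] [AddCommGroup V] [Module F V]
variable {a : Module.End F V} {G : Subgroup (V ≃ₗ[F] V)}

/-- automorphisms of `range a` of the form `(a * g)` restricted to `range a` -/
def AA (a : Module.End F V) (G : Subgroup (V ≃ₗ[F] V)) :
    Set (LinearMap.range a ≃ₗ[F] LinearMap.range a) :=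
  {s | ∃ g ∈ G, ∀ u : LinearMap.range a, (s u : V) = a (g u)}

/-- `s ∘ a` as an endomorphism of `V` -/
def cmap (s : LinearMap.range a ≃ₗ[F] LinearMap.range a) : Module.End F V :=
  (LinearMap.range a).subtype ∘ₗ (s : LinearMap.range a →ₗ[F] LinearMap.range a) ∘ₗ
    a.rangeRestrict

lemma cmap_apply (s : LinearMap.range a ≃ₗ[F] LinearMap.range a) (v : V) :
    cmap s v = (s ⟨a v, LinearMap.mem_range_self a v⟩ : V) := rfl

lemma cmap_one : cmap (1 : LinearMap.range a ≃ₗ[F] LinearMap.range a) = a := by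
  ext v
  rw [cmap_apply]
  rfl

lemma cmap_mem {s : LinearMap.range a ≃ₗ[F] LinearMap.range a}
    (hs : s ∈ Submonoid.closure (AA a G)) : cmap s ∈ gen a G := by
  induction hs using Submonoid.closure_induction_left with
  | one => rw [cmap_one]; exact a_mem
  | mul_left x hx y hy ih =>
    obtain ⟨g, hg, hx⟩ := hx
    have h1 : cmap (x * y) = a * (g : V →ₗ[F] V) * cmap y := by
      ext v
      rw [cmap_apply, LinearEquiv.mul_apply, hx]
      rfl
    rw [h1]
    exact (gen a G).mul_mem ((gen a G).mul_mem a_mem (g_mem hg)) ih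

lemma cc_range {c : Module.End F V} (hc : c ∈ CC a G) {u : V} (hu : u ∈ LinearMap.range a) :
    c u ∈ LinearMap.range a := by
  rcases cc_left hc with h | ⟨c', hc', h, hh, rfl⟩
  · rw [h]; exact hu
  · exact ⟨h (c' u), rfl⟩

variable [FiniteDimensional F V]

/-- an injective restriction gives an automorphism of the range -/
lemma mk_equiv (U : Submodule F V) (c : Module.End F V) (h1 : ∀ u ∈ U, c u ∈ U)
    (h2 : ∀ u ∈ U, c u = 0 → u = 0) : ∃ s : U ≃ₗ[F] U, ∀ u : U, (s u : V) = c u := by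
  have hinj : Function.Injective (c.restrict h1) := by
    rw [← LinearMap.ker_eq_bot, LinearMap.ker_eq_bot']
    intro m hm
    apply Subtype.ext
    apply h2 m m.2
    have := congrArg Subtype.val hm
    simpa using this
  exact ⟨LinearEquiv.ofInjectiveEndo _ hinj, fun u => rfl⟩

lemma cc_closure {c : Module.End F V} (hc : c ∈ CC a G)
    (s : LinearMap.range a ≃ₗ[F] LinearMap.range a)
    (hs : ∀ u : LinearMap.range a, (s u : V) = c u) : s ∈ Submonoid.closure (AA a G) := by
  induction hc using Submonoid.closure_induction_left generalizing s with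
  | one =>
    have h1 : s = 1 := by
      ext u
      rw [hs u]
      rfl
    rw [h1]
    exact Submonoid.one_mem _
  | mul_left x hx y hy ih =>
    obtain ⟨g, hg, rfl⟩ := hx
    have hU : ∀ u ∈ LinearMap.range a, y u ∈ LinearMap.range a := fun u hu => cc_range hy hu
    have hI : ∀ u ∈ LinearMap.range a, y u = 0 → u = 0 := by
      intro u hu h0
      have h1 := hs ⟨u, hu⟩
      simp only [Module.End.mul_apply, h0, map_zero] at h1
      have h2 : s ⟨u, hu⟩ = 0 := Subtype.ext h1
      have h3 := (LinearEquiv.map_eq_zero_iff s).1 h2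
      exact congrArg Subtype.val h3
    obtain ⟨t, ht⟩ := mk_equiv _ y hU hI
    have h4 : t ∈ Submonoid.closure (AA a G) := ih t ht
    have h5 : s * t⁻¹ ∈ AA a G := by
      refine ⟨g, hg, fun u => ?_⟩
      have h6 := ht (t⁻¹ u)
      have h7 : t (t⁻¹ u) = u := by
        rw [← LinearEquiv.mul_apply, mul_inv_cancel]; rfl
      rw [h7] at h6
      rw [LinearEquiv.mul_apply, hs, h6]
      rfl
    have h8 : s = (s * t⁻¹) * t := by rw [inv_mul_cancel_right]
    rw [h8]
    exact Submonoid.mul_mem _ (Submonoid.subset_closure h5) h4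

/-- if the inverses of the generators are in the monoid, then it contains the group -/
lemma closure_of_inv (hinv : ∀ α ∈ AA a G, α⁻¹ ∈ Submonoid.closure (AA a G))
    {s : LinearMap.range a ≃ₗ[F] LinearMap.range a} (hs : s ∈ Subgroup.closure (AA a G)) :
    s ∈ Submonoid.closure (AA a G) := by
  have key : ∀ x ∈ Submonoid.closure (AA a G), x⁻¹ ∈ Submonoid.closure (AA a G) := by
    intro x hx
    induction hx using Submonoid.closure_induction with
    | mem x hx => exact hinv x hx
    | one => rw [inv_one]; exact Submonoid.one_mem _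
    | mul x y hx hy ihx ihy => rw [mul_inv_rev]; exact Submonoid.mul_mem _ ihy ihx
  induction hs using Subgroup.closure_induction with
  | mem x hx => exact Submonoid.subset_closure hx
  | one => exact Submonoid.one_mem _
  | mul x y hx hy ihx ihy => exact Submonoid.mul_mem _ ihx ihy
  | inv x hx ihx => exact key x ihx

/-- regularity gives the inverses -/
lemma inv_of_regular (hreg : ∀ x ∈ gen a G, ∃ y ∈ gen a G, x * y * x = x) :
    ∀ α ∈ AA a G, α⁻¹ ∈ Submonoid.closure (AA a G) := by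
  rintro α ⟨g, hg, hα⟩
  obtain ⟨z, hz, hyz⟩ := hreg (a * (g : V →ₗ[F] V) * a)
    ((gen a G).mul_mem ((gen a G).mul_mem a_mem (g_mem hg)) a_mem)
  refine cc_closure (a_mul_mem hz) _ ?_
  intro u
  -- `u = α (a v)`
  obtain ⟨v, hv⟩ := (α⁻¹ u).2
  have hu : u = α ⟨a v, LinearMap.mem_range_self a v⟩ := by
    have h1 : (⟨a v, LinearMap.mem_range_self a v⟩ : LinearMap.range a) = α⁻¹ u :=
      Subtype.ext hv
    rw [h1, ← LinearEquiv.mul_apply, mul_inv_cancel]
    rfl
  have h2 := LinearMap.congr_fun hyz v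
  simp only [Module.End.mul_apply, LinearEquiv.coe_coe] at h2
  have h3 : (u : V) = a (g (a v)) := by rw [hu, hα]
  rw [← h3] at h2
  have h4 : α ⟨a (z u), LinearMap.mem_range_self a _⟩ = u := by
    apply Subtype.ext
    rw [hα]
    exact h2
  have h5 : α⁻¹ u = ⟨a (z u), LinearMap.mem_range_self a _⟩ := by
    rw [← h4, ← LinearEquiv.mul_apply, inv_mul_cancel]
    simp only [h4]
    rfl
  rw [h5]
  rfl

lemma inv_of_finite [Finite F] : ∀ α ∈ AA a G, α⁻¹ ∈ Submonoid.closure (AA a G) := by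
  intro α hα
  have : Finite V := Module.finite_of_finite F
  have : Finite (LinearMap.range a ≃ₗ[F] LinearMap.range a) :=
    Finite.of_injective (fun s : LinearMap.range a ≃ₗ[F] LinearMap.range a =>
      (s : LinearMap.range a → LinearMap.range a)) DFunLike.coe_injective
  have h1 : α⁻¹ ∈ Submonoid.powers α := by
    rw [mem_powers_iff_mem_zpowers]
    exact Subgroup.inv_mem _ (Subgroup.mem_zpowers α)
  obtain ⟨k, hk⟩ := h1
  rw [← hk]
  exact Submonoid.pow_mem _ (Submonoid.subset_closure hα) k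

/-- the perspectivity argument -/
lemma persp (ha : ¬ IsUnit a) (hk : Trans G (finrank F (LinearMap.range a)))
    (hk' : Trans G (finrank F (LinearMap.ker a)))
    (s : LinearMap.range a ≃ₗ[F] LinearMap.range a) (f : Dual F (LinearMap.range a))
    (e' : LinearMap.range a) (hs : ∀ u, s u = u + f u • e') :
    s ∈ Subgroup.closure (AA a G) := by
  by_cases hf : f = 0
  · have h1 : s = 1 := by
      ext u
      rw [hs u, hf]
      simp
    rw [h1]
    exact Subgroup.one_mem _
  obtain ⟨e, he⟩ : ∃ e, f e = 1 := by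
    obtain ⟨x, hx⟩ : ∃ x, f x ≠ 0 := by
      by_contra hcon
      push Not at hcon
      exact hf (LinearMap.ext hcon)
    exact ⟨(f x)⁻¹ • x, by simp [hx]⟩
  -- a vector outside of the range
  obtain ⟨f0, hf0⟩ : ∃ f0, f0 ∉ LinearMap.range a := by
    by_contra hcon
    push Not at hcon
    apply ha
    rw [LinearMap.isUnit_iff_range_eq_top, eq_top_iff]
    intro x _
    exact hcon x
  have hn := LinearMap.finrank_range_add_finrank_ker a
  -- the complements
  have comp : ∀ p : LinearMap.range a, ∃ g ∈ G, a (g (f0 - p)) = 0 ∧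
      ∃ α : LinearMap.range a ≃ₗ[F] LinearMap.range a, ∀ u : LinearMap.range a,
        (α u : V) = a (g u) := by
    intro p
    have h1 : f0 - (p : V) ∉ LinearMap.range a := by
      intro h
      apply hf0
      have := (LinearMap.range a).add_mem h p.2
      rwa [sub_add_cancel] at this
    obtain ⟨D, hD, hxD⟩ := exists_compl_mem _ _ h1
    have h2 := Submodule.finrank_add_eq_of_isCompl hD
    obtain ⟨g, hg, hgD⟩ := hk' D (LinearMap.ker a) (by omega) rfl
    have h3 : ∀ d ∈ D, a (g d) = 0 := by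
      intro d hd
      have : g d ∈ LinearMap.ker a := by
        rw [← hgD]
        exact ⟨d, hd, rfl⟩
      exact this
    have h4 : ∀ v, a (g v) = 0 → v ∈ D := by
      intro v hv
      have : g v ∈ D.map (g : V →ₗ[F] V) := by
        rw [hgD]; exact hv
      obtain ⟨d, hd, hdv⟩ := this
      have h5 : d = v := g.injective hdv
      rwa [← h5]
    refine ⟨g, hg, h3 _ hxD, ?_⟩
    refine mk_equiv (LinearMap.range a) (a * (g : V →ₗ[F] V)) (fun u _ => ⟨g u, rfl⟩) ?_
    intro u hu h0
    have h5 : u ∈ D := h4 u h0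
    have h6 : u ∈ LinearMap.range a ⊓ D := ⟨hu, h5⟩
    rw [hD.inf_eq_bot] at h6
    simpa using h6
  obtain ⟨g1, hg1, hz1, α1, hα1⟩ := comp (e + e')
  obtain ⟨g2, hg2, hz2, α2, hα2⟩ := comp e
  -- the perspective plane
  let ψ : LinearMap.range a →ₗ[F] V :=
    (LinearMap.range a).subtype + f.smulRight (f0 - (e : V))
  have hψ : ∀ u, ψ u = (u : V) + f u • (f0 - (e : V)) := fun u => rfl
  have hψi : Function.Injective ψ := by
    rw [← LinearMap.ker_eq_bot, LinearMap.ker_eq_bot']
    intro u hu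
    rw [hψ] at hu
    by_cases h0 : f u = 0
    · rw [h0, zero_smul, add_zero] at hu
      exact Subtype.ext hu
    · exfalso
      apply hf0
      have h1 : f0 = (e : V) - (f u)⁻¹ • (u : V) := by
        have h2 : f u • (f0 - (e : V)) = -(u : V) := by
          rw [eq_neg_iff_add_eq_zero, add_comm]; exact hu
        have h3 : f0 - (e : V) = (f u)⁻¹ • (-(u : V)) := by
          rw [← h2, smul_smul, inv_mul_cancel₀ h0, one_smul]
        rw [eq_add_of_sub_eq h3, smul_neg]
        abel
      rw [h1]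
      exact (LinearMap.range a).sub_mem e.2 ((LinearMap.range a).smul_mem _ u.2)
  have hψr : finrank F (LinearMap.range ψ) = finrank F (LinearMap.range a) :=
    LinearMap.finrank_range_of_inj hψi
  obtain ⟨h, hh, hhU⟩ := hk (LinearMap.range a) (LinearMap.range ψ) rfl hψr
  have hex : ∀ u : LinearMap.range a, ∃ u' : LinearMap.range a, ψ u' = h u := by
    intro u
    have h1 : h u ∈ LinearMap.range ψ := by
      rw [← hhU]
      exact ⟨u, u.2, rfl⟩
    exact h1
  have c1 : ∀ u' : LinearMap.range a, a (g1 (ψ u')) = α1 (s u') := by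
    intro u'
    rw [hα1, hs]
    have h1 : ψ u' = ((u' + f u' • e' : LinearMap.range a) : V) +
        f u' • (f0 - ((e + e' : LinearMap.range a) : V)) := by
      rw [hψ]
      simp only [Submodule.coe_add, Submodule.coe_smul, smul_sub, smul_add]
      abel
    rw [h1, map_add, map_add, map_smul, map_smul, hz1, smul_zero, add_zero]
  have c2 : ∀ u' : LinearMap.range a, a (g2 (ψ u')) = α2 u' := by
    intro u'
    rw [hα2, hψ, map_add, map_add, map_smul, map_smul, hz2, smul_zero, add_zero]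
  have inj1 : ∀ u ∈ LinearMap.range a, (a * ((g1 * h : V ≃ₗ[F] V) : V →ₗ[F] V)) u = 0 → u = 0 := by
    intro u hu h0
    obtain ⟨u', hu'⟩ := hex ⟨u, hu⟩
    have h1 : a (g1 (h u)) = 0 := h0
    rw [← hu', c1] at h1
    have h2 : α1 (s u') = 0 := Subtype.ext h1
    rw [LinearEquiv.map_eq_zero_iff, LinearEquiv.map_eq_zero_iff] at h2
    rw [h2, map_zero] at hu'
    exact (LinearEquiv.map_eq_zero_iff h).1 hu'.symm
  have inj2 : ∀ u ∈ LinearMap.range a, (a * ((g2 * h : V ≃ₗ[F] V) : V →ₗ[F] V)) u = 0 → u = 0 := by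
    intro u hu h0
    obtain ⟨u', hu'⟩ := hex ⟨u, hu⟩
    have h1 : a (g2 (h u)) = 0 := h0
    rw [← hu', c2] at h1
    have h2 : α2 u' = 0 := Subtype.ext h1
    rw [LinearEquiv.map_eq_zero_iff] at h2
    rw [h2, map_zero] at hu'
    exact (LinearEquiv.map_eq_zero_iff h).1 hu'.symm
  obtain ⟨γ1, hγ1⟩ := mk_equiv (LinearMap.range a) _ (fun u _ => ⟨(g1 * h : V ≃ₗ[F] V) u, rfl⟩) inj1
  obtain ⟨γ2, hγ2⟩ := mk_equiv (LinearMap.range a) _ (fun u _ => ⟨(g2 * h : V ≃ₗ[F] V) u, rfl⟩) inj2
  have m1 : α1 ∈ Subgroup.closure (AA a G) := Subgroup.subset_closure ⟨g1, hg1, hα1⟩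
  have m2 : α2 ∈ Subgroup.closure (AA a G) := Subgroup.subset_closure ⟨g2, hg2, hα2⟩
  have m3 : γ1 ∈ Subgroup.closure (AA a G) :=
    Subgroup.subset_closure ⟨g1 * h, G.mul_mem hg1 hh, hγ1⟩
  have m4 : γ2 ∈ Subgroup.closure (AA a G) :=
    Subgroup.subset_closure ⟨g2 * h, G.mul_mem hg2 hh, hγ2⟩
  have key : γ1 = α1 * s * (α2⁻¹ * γ2) := by
    apply LinearEquiv.ext
    intro u
    obtain ⟨u', hu'⟩ := hex u
    have h1 : γ2 u = α2 u' := by
      apply Subtype.ext
      rw [hγ2, ← c2, hu']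
      rfl
    have h2 : (α2⁻¹ * γ2) u = u' := by
      rw [LinearEquiv.mul_apply, h1, ← LinearEquiv.mul_apply, inv_mul_cancel]
      rfl
    rw [LinearEquiv.mul_apply, h2]
    apply Subtype.ext
    rw [hγ1, LinearEquiv.mul_apply, ← c1, hu']
    rfl
  have key2 : s = α1⁻¹ * γ1 * (α2⁻¹ * γ2)⁻¹ := by
    rw [key]
    group
  rw [key2]
  exact Subgroup.mul_mem _ (Subgroup.mul_mem _ (Subgroup.inv_mem _ m1) m3)
    (Subgroup.inv_mem _ (Subgroup.mul_mem _ (Subgroup.inv_mem _ m2) m4))

lemma all_mem (ha : ¬ IsUnit a) (hk : Trans G (finrank F (LinearMap.range a)))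
    (hk' : Trans G (finrank F (LinearMap.ker a)))
    (s : LinearMap.range a ≃ₗ[F] LinearMap.range a) : s ∈ Subgroup.closure (AA a G) :=
  gl_gen _ (fun s f e hs => persp ha hk hk' s f e hs) s

/-- sufficiency -/
theorem suff (ha : ¬ IsUnit a) (hk : Trans G (finrank F (LinearMap.range a)))
    (hk' : Trans G (finrank F (LinearMap.ker a)))
    (hinv : ∀ α ∈ AA a G, α⁻¹ ∈ Submonoid.closure (AA a G)) : IsAutPair a G := by
  rw [pair_iff ha]
  intro h h'
  obtain ⟨g1, hg1, hK⟩ := hk' ((LinearMap.ker a).map (h'.symm : V →ₗ[F] V)) (LinearMap.ker a)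
    (by rw [LinearEquiv.finrank_map_eq]) rfl
  obtain ⟨g0, hg0, hR⟩ := hk (LinearMap.range a) ((LinearMap.range a).map (h : V →ₗ[F] V)) rfl
    (by rw [LinearEquiv.finrank_map_eq])
  set b : Module.End F V := (g0.symm : V →ₗ[F] V) * ((h : V →ₗ[F] V) * a * (h' : V →ₗ[F] V)) *
    (g1.symm : V →ₗ[F] V) with hb
  have hbv : ∀ v, b v = g0.symm (h (a (h' (g1.symm v)))) := fun v => rfl
  have hkb : LinearMap.ker b = LinearMap.ker a := by
    ext v
    rw [LinearMap.mem_ker, hbv, LinearEquiv.map_eq_zero_iff, LinearEquiv.map_eq_zero_iff]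
    constructor
    · intro h0
      rw [← hK]
      refine ⟨g1.symm v, ⟨h' (g1.symm v), h0, ?_⟩, ?_⟩
      · simp
      · simp
    · intro h0
      rw [← hK] at h0
      obtain ⟨w, ⟨x, hx, hxw⟩, hwv⟩ := h0
      have h1 : h' (g1.symm v) = x := by
        rw [← hwv, ← hxw]
        simp
      rw [h1]
      exact hx
  have hrb : LinearMap.range b = LinearMap.range a := by
    apply Submodule.eq_of_le_of_finrank_eq
    · rintro _ ⟨v, rfl⟩
      rw [hbv]
      have h1 : h (a (h' (g1.symm v))) ∈ (LinearMap.range a).map (h : V →ₗ[F] V) :=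
        ⟨_, LinearMap.mem_range_self a _, rfl⟩
      rw [← hR] at h1
      obtain ⟨x, hx, hxv⟩ := h1
      rw [← hxv]
      simpa using hx
    · have h1 := LinearMap.finrank_range_add_finrank_ker a
      have h2 := LinearMap.finrank_range_add_finrank_ker b
      rw [hkb] at h2
      omega
  obtain ⟨s, hs⟩ := exists_factor a b hkb hrb
  have h1 : b = cmap s := by
    ext v
    rw [cmap_apply, hs]
  have h2 : b ∈ gen a G := by
    rw [h1]
    exact cmap_mem (closure_of_inv hinv (all_mem ha hk hk' s))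
  have h3 : (h : V →ₗ[F] V) * a * (h' : V →ₗ[F] V) =
      (g0 : V →ₗ[F] V) * b * (g1 : V →ₗ[F] V) := by
    ext v
    rw [Module.End.mul_apply, Module.End.mul_apply, Module.End.mul_apply, Module.End.mul_apply]
    simp only [LinearEquiv.coe_coe, hbv, LinearEquiv.symm_apply_apply,
      LinearEquiv.apply_symm_apply]
  rw [h3]
  exact (gen a G).mul_mem ((gen a G).mul_mem (g_mem hg0) h2) (g_mem hg1)

/-- necessity: transitivity on the subspaces of dimension `rank a` -/
theorem nec_range (ha : ¬ IsUnit a) (hp : IsAutPair a G) :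
    Trans G (finrank F (LinearMap.range a)) := by
  rw [pair_iff ha] at hp
  have key : ∀ U : Submodule F V, finrank F U = finrank F (LinearMap.range a) →
      ∃ g ∈ G, (LinearMap.range a).map (g : V →ₗ[F] V) = U := by
    intro U hU
    obtain ⟨θ, hθ⟩ := exists_map_eq (LinearMap.range a) U hU.symm
    have h1 := hp θ 1
    obtain ⟨g, hg, c, hc, hgc⟩ := gen_form h1
    rcases cc_left hc with h | ⟨c', hc', h, hh, rfl⟩
    · exfalso
      apply hah_not_unit ha θ 1
      rw [hgc, h, mul_one]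
      exact isUnit_of_coe g
    · refine ⟨g, hg, ?_⟩
      symm
      apply Submodule.eq_of_le_of_finrank_eq
      · rw [← hθ]
        rintro _ ⟨_, ⟨v, rfl⟩, rfl⟩
        have h2 := LinearMap.congr_fun hgc v
        simp only [Module.End.mul_apply, coe_one', Module.End.one_apply, LinearEquiv.coe_coe]
          at h2
        rw [LinearEquiv.coe_coe, h2]
        exact ⟨_, ⟨_, rfl⟩, rfl⟩
      · rw [hU, LinearEquiv.finrank_map_eq]
  intro U U' hU hU'
  obtain ⟨g, hg, h1⟩ := key U hU
  obtain ⟨g', hg', h2⟩ := key U' hU'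
  refine ⟨g' * g⁻¹, G.mul_mem hg' (G.inv_mem hg), ?_⟩
  rw [← h1, ← h2, coe_mul', Module.End.mul_eq_comp, Submodule.map_comp, ← Submodule.map_comp (f := (g : V →ₗ[F] V))]
  congr 1
  have h3 : ((g⁻¹ : V ≃ₗ[F] V) : V →ₗ[F] V) ∘ₗ (g : V →ₗ[F] V) = LinearMap.id := by
    ext v
    change (g⁻¹ * g) v = v
    rw [inv_mul_cancel]; rfl
  rw [h3, Submodule.map_id]

/-- necessity: transitivity on the subspaces of dimension `dim ker a` -/
theorem nec_ker (ha : ¬ IsUnit a) (hp : IsAutPair a G) :
    Trans G (finrank F (LinearMap.ker a)) := by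
  rw [pair_iff ha] at hp
  have key : ∀ K : Submodule F V, finrank F K = finrank F (LinearMap.ker a) →
      ∃ g ∈ G, K.map (g : V →ₗ[F] V) = LinearMap.ker a := by
    intro K hK
    obtain ⟨θ, hθ⟩ := exists_map_eq K (LinearMap.ker a) hK
    have h1 := hp 1 θ
    obtain ⟨g, hg, c, hc, hgc⟩ := gen_form h1
    rcases cc_right hc with h | ⟨c', hc', h, hh, rfl⟩
    · exfalso
      apply hah_not_unit ha 1 θ
      rw [hgc, h, mul_one]
      exact isUnit_of_coe g
    · refine ⟨h, hh, ?_⟩
      symm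
      apply Submodule.eq_of_le_of_finrank_eq
      · intro w hw
        refine ⟨h.symm w, ?_, by simp⟩
        -- `h.symm w ∈ K`
        have h2 := LinearMap.congr_fun hgc (h.symm w)
        have hw0 : a w = 0 := hw
        simp only [Module.End.mul_apply, coe_one', Module.End.one_apply, LinearEquiv.coe_coe,
          LinearEquiv.apply_symm_apply, hw0, map_zero] at h2
        have h3 : θ (h.symm w) ∈ K.map (θ : V →ₗ[F] V) := by
          rw [hθ]; exact h2
        obtain ⟨x, hx, hxw⟩ := h3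
        have h4 : x = h.symm w := θ.injective hxw
        rw [← h4]; exact hx
      · rw [LinearEquiv.finrank_map_eq, hK]
  intro U U' hU hU'
  obtain ⟨g, hg, h1⟩ := key U hU
  obtain ⟨g', hg', h2⟩ := key U' hU'
  refine ⟨g'⁻¹ * g, G.mul_mem (G.inv_mem hg') hg, ?_⟩
  rw [coe_mul', Module.End.mul_eq_comp, Submodule.map_comp, h1, ← h2, ← Submodule.map_comp]
  have h3 : ((g'⁻¹ : V ≃ₗ[F] V) : V →ₗ[F] V) ∘ₗ (g' : V →ₗ[F] V) = LinearMap.id := by
    ext v
    change (g'⁻¹ * g') v = v
    rw [inv_mul_cancel]; rfl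
  rw [h3, Submodule.map_id]

/-- necessity: regularity -/
theorem nec_reg (ha : ¬ IsUnit a) (hp : IsAutPair a G) :
    ∀ x ∈ gen a G, ∃ y ∈ gen a G, x * y * x = x := by
  intro x hx
  rcases gen_cases ha hx with ⟨g, hg, rfl⟩ | hxu
  · refine ⟨((g⁻¹ : V ≃ₗ[F] V) : V →ₗ[F] V), g_mem (G.inv_mem hg), ?_⟩
    rw [← coe_mul', mul_inv_cancel, coe_one', one_mul]
  · obtain ⟨u, hu⟩ := unit_regular x
    have h1 : (u : V →ₗ[F] V) * x * (u : V →ₗ[F] V) ∈
        (gen a ⊤ : Set (Module.End F V)) \ GE ⊤ := by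
      refine ⟨?_, not_mem_GE (hah_not_unit hxu u u)⟩
      exact (gen a ⊤).mul_mem ((gen a ⊤).mul_mem (g_mem (Subgroup.mem_top _))
        (gen_mono le_top hx)) (g_mem (Subgroup.mem_top _))
    rw [← show (gen a G : Set (Module.End F V)) \ GE G = _ from hp] at h1
    refine ⟨_, h1.1, ?_⟩
    calc x * ((u : V →ₗ[F] V) * x * (u : V →ₗ[F] V)) * x =
        (x * (u : V →ₗ[F] V) * x) * (u : V →ₗ[F] V) * x := by simp only [mul_assoc]
      _ = x := by rw [hu, hu]

theorem main_iff (ha : ¬ IsUnit a) : IsAutPair a G ↔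
    Trans G (finrank F (LinearMap.range a)) ∧ Trans G (finrank F (LinearMap.ker a)) ∧
      ∀ x ∈ gen a G, ∃ y ∈ gen a G, x * y * x = x :=
  ⟨fun h => ⟨nec_range ha h, nec_ker ha h, nec_reg ha h⟩,
    fun h => suff ha h.1 h.2.1 (inv_of_regular h.2.2)⟩

theorem finite_iff [Finite F] (ha : ¬ IsUnit a) : IsAutPair a G ↔
    Trans G (finrank F (LinearMap.range a)) ∧ Trans G (finrank F (LinearMap.ker a)) :=
  ⟨fun h => ⟨nec_range ha h, nec_ker ha h⟩, fun h => suff ha h.1 h.2 inv_of_finite⟩

end Pool.Agent.Helper91.AP
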