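import Mathlib
import Pool.Agent.Helper91.AP.Main

/-!
# An example over `ℚ`: transitivity does not suffice
-/

set_option autoImplicit false

namespace Pool.Agent.Helper91.AP

open Module

/-- `SL₂(ℤ)` acting on `ℚ²` -/
noncomputable def GZ : Subgroup ((Fin 2 → ℚ) ≃ₗ[ℚ] (Fin 2 → ℚ)) :=
  ((Matrix.SpecialLinearGroup.toLin' (n := Fin 2) (R := ℚ)).comp
    (Matrix.SpecialLinearGroup.map (Int.castRingHom ℚ))).range

/-- the projection to the first coordinate -/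
noncomputable def aZ : Module.End ℚ (Fin 2 → ℚ) :=
  (LinearMap.single ℚ (fun _ : Fin 2 => ℚ) 0) ∘ₗ (LinearMap.proj 0)

lemma aZ_apply (v : Fin 2 → ℚ) : aZ v = Pi.single 0 (v 0) := rfl

lemma GZ_mem (M : Matrix.SpecialLinearGroup (Fin 2) ℤ) :
    Matrix.SpecialLinearGroup.toLin' (n := Fin 2) (R := ℚ)
      (Matrix.SpecialLinearGroup.map (Int.castRingHom ℚ) M) ∈ GZ := ⟨M, rfl⟩

lemma toLin_apply (M : Matrix.SpecialLinearGroup (Fin 2) ℤ) (v : Fin 2 → ℚ) (i : Fin 2) :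
    Matrix.SpecialLinearGroup.toLin' (n := Fin 2) (R := ℚ)
      (Matrix.SpecialLinearGroup.map (Int.castRingHom ℚ) M) v i =
      (M.1 i 0 : ℚ) * v 0 + (M.1 i 1 : ℚ) * v 1 := by
  rw [Matrix.SpecialLinearGroup.toLin'_apply]
  simp [Matrix.mulVec, dotProduct, Fin.sum_univ_two]

lemma aZ_not_unit : ¬ IsUnit aZ := by
  intro h
  have h1 := (LinearMap.isUnit_iff_ker_eq_bot _).1 h
  rw [LinearMap.ker_eq_bot'] at h1
  have h2 := h1 (Pi.single 1 1) (by rw [aZ_apply]; simp)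
  have h3 := congrFun h2 1
  simp at h3

lemma exists_coprime (w : Fin 2 → ℚ) (hw : w ≠ 0) :
    ∃ (c : ℚ) (p q : ℤ), c ≠ 0 ∧ IsCoprime p q ∧ w 0 = c * p ∧ w 1 = c * q := by
  set X : ℤ := (w 0).num * (w 1).den with hX
  set Y : ℤ := (w 1).num * (w 0).den with hY
  have hd0 : ((w 0).den : ℚ) ≠ 0 := Nat.cast_ne_zero.2 (w 0).den_ne_zero
  have hd1 : ((w 1).den : ℚ) ≠ 0 := Nat.cast_ne_zero.2 (w 1).den_ne_zero
  have h0 : w 0 * ((w 0).den * (w 1).den) = X := by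
    rw [hX]
    push_cast
    rw [← mul_assoc, Rat.mul_den_eq_num]
  have h1 : w 1 * ((w 0).den * (w 1).den) = Y := by
    rw [hY]
    push_cast
    rw [mul_comm ((w 0).den : ℚ), ← mul_assoc, Rat.mul_den_eq_num]
  have hg : 0 < Int.gcd X Y := by
    rw [Int.gcd_pos_iff]
    by_contra hcon
    push Not at hcon
    apply hw
    rw [hcon.1] at h0
    rw [hcon.2] at h1
    have hd : ((w 0).den : ℚ) * (w 1).den ≠ 0 := mul_ne_zero hd0 hd1
    funext i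
    fin_cases i
    · simpa [hd0, hd1] using h0
    · simpa [hd0, hd1] using h1
  obtain ⟨p, q, hpq, hp, hq⟩ := Int.exists_gcd_one hg
  refine ⟨(Int.gcd X Y : ℚ) / ((w 0).den * (w 1).den), p, q, ?_, ?_, ?_, ?_⟩
  · exact div_ne_zero (Nat.cast_ne_zero.2 hg.ne') (mul_ne_zero hd0 hd1)
  · exact Int.isCoprime_iff_gcd_eq_one.2 hpq
  · have h2 : (X : ℚ) = p * (Int.gcd X Y : ℚ) := by exact_mod_cast hp
    rw [div_mul_eq_mul_div, eq_div_iff (mul_ne_zero hd0 hd1), h0, h2, mul_comm]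
  · have h2 : (Y : ℚ) = q * (Int.gcd X Y : ℚ) := by exact_mod_cast hq
    rw [div_mul_eq_mul_div, eq_div_iff (mul_ne_zero hd0 hd1), h1, h2, mul_comm]

lemma trans_one_aux (U : Submodule ℚ (Fin 2 → ℚ)) (hU : finrank ℚ U = 1) :
    ∃ g ∈ GZ, (Submodule.span ℚ {(Pi.single 0 1 : Fin 2 → ℚ)}).map
      (g : (Fin 2 → ℚ) →ₗ[ℚ] (Fin 2 → ℚ)) = U := by
  obtain ⟨w, hw0, hw⟩ := finrank_eq_one_iff'.1 hU
  have hw0' : (w : Fin 2 → ℚ) ≠ 0 := fun h => hw0 (Subtype.ext h)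
  obtain ⟨c, p, q, hc, ⟨s, t, hst⟩, h0, h1⟩ := exists_coprime w hw0'
  -- `s * p + t * q = 1`
  let M : Matrix.SpecialLinearGroup (Fin 2) ℤ := ⟨!![p, -t; q, s], by
    rw [Matrix.det_fin_two_of]
    linarith⟩
  refine ⟨_, GZ_mem M, ?_⟩
  rw [Submodule.map_span, Set.image_singleton]
  have h2 : Matrix.SpecialLinearGroup.toLin' (n := Fin 2) (R := ℚ)
      (Matrix.SpecialLinearGroup.map (Int.castRingHom ℚ) M) (Pi.single 0 1) =
      c⁻¹ • (w : Fin 2 → ℚ) := by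
    funext i
    rw [toLin_apply]
    fin_cases i
    · simp [M, h0, hc]
    · simp [M, h1, hc]
  rw [LinearEquiv.coe_coe, h2]
  apply Submodule.eq_of_le_of_finrank_eq
  · rw [Submodule.span_singleton_le_iff_mem]
    exact U.smul_mem _ w.2
  · rw [hU, finrank_span_singleton]
    exact smul_ne_zero (inv_ne_zero hc) hw0'

lemma GZ_trans (m : ℕ) : Trans GZ m := by
  intro U U' hU hU'
  have hle := Submodule.finrank_le U
  rw [hU, finrank_fin_fun] at hle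
  have hm : m = 0 ∨ m = 1 ∨ m = 2 := by omega
  rcases hm with rfl | rfl | rfl
  · refine ⟨1, GZ.one_mem, ?_⟩
    rw [Submodule.finrank_eq_zero] at hU hU'
    rw [hU, hU', Submodule.map_bot]
  · obtain ⟨g, hg, h1⟩ := trans_one_aux U hU
    obtain ⟨g', hg', h2⟩ := trans_one_aux U' hU'
    refine ⟨g' * g⁻¹, GZ.mul_mem hg' (GZ.inv_mem hg), ?_⟩
    rw [← h1, ← h2, coe_mul', Module.End.mul_eq_comp, Submodule.map_comp,
      ← Submodule.map_comp (f := (g : (Fin 2 → ℚ) →ₗ[ℚ] (Fin 2 → ℚ)))]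
    congr 1
    have h3 : ((g⁻¹ : (Fin 2 → ℚ) ≃ₗ[ℚ] (Fin 2 → ℚ)) : (Fin 2 → ℚ) →ₗ[ℚ] (Fin 2 → ℚ)) ∘ₗ
        (g : (Fin 2 → ℚ) →ₗ[ℚ] (Fin 2 → ℚ)) = LinearMap.id := by
      apply LinearMap.ext
      intro v
      change (g⁻¹ * g) v = v
      rw [inv_mul_cancel]; rfl
    rw [h3, Submodule.map_id]
  · refine ⟨1, GZ.one_mem, ?_⟩
    have e1 : U = ⊤ := Submodule.eq_top_of_finrank_eq (by rw [hU, finrank_fin_fun])
    have e2 : U' = ⊤ := Submodule.eq_top_of_finrank_eq (by rw [hU', finrank_fin_fun])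
    rw [e1, e2, coe_one', Module.End.one_eq_id, Submodule.map_id]

lemma gen_int {x : Module.End ℚ (Fin 2 → ℚ)} (hx : x ∈ gen aZ GZ) :
    ∀ v : Fin 2 → ℚ, (∀ i, ∃ n : ℤ, v i = n) → ∀ i, ∃ n : ℤ, x v i = n := by
  induction hx using Subsemigroup.closure_induction with
  | mem x hx =>
    rcases hx with hx | ⟨g, hg, rfl⟩
    · rw [Set.mem_singleton_iff] at hx
      intro v hv i
      rw [hx, aZ_apply]
      fin_cases i
      · obtain ⟨n, hn⟩ := hv 0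
        exact ⟨n, by simpa using hn⟩
      · exact ⟨0, by simp⟩
    · obtain ⟨M, rfl⟩ := hg
      intro v hv i
      obtain ⟨n0, h0⟩ := hv 0
      obtain ⟨n1, h1⟩ := hv 1
      refine ⟨M.1 i 0 * n0 + M.1 i 1 * n1, ?_⟩
      have h2 := toLin_apply M v i
      rw [h0, h1] at h2
      push_cast
      exact h2
  | mul x y hx hy ihx ihy =>
    intro v hv i
    exact ihx _ (ihy v hv) i

lemma not_pair : ¬ IsAutPair aZ GZ := by
  intro hp
  rw [pair_iff aZ_not_unit] at hp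
  have h1 := hp (LinearEquiv.smulOfNeZero ℚ (Fin 2 → ℚ) (1 / 2 : ℚ) (by norm_num)) 1
  have h2 := gen_int h1 (Pi.single 0 1) (fun i => by
    fin_cases i
    · exact ⟨1, by simp⟩
    · exact ⟨0, by simp⟩) 0
  obtain ⟨n, hn⟩ := h2
  have h3 : ((1 / 2 : ℚ)) = n := by
    rw [← hn]
    simp [aZ_apply]
  have h4 : (1 : ℚ) = 2 * n := by rw [← h3]; norm_num
  have h5 : (1 : ℤ) = 2 * n := by exact_mod_cast h4
  omega

end Pool.Agent.Helper91.AP
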