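import Mathlib
import Pool.Agent.Helper91.AP.Main

/-!
# Finite fields: transitivity on the subspaces of dimension `k` and `n - k`
-/

set_option autoImplicit false

namespace Pool.Agent.Helper91.AP

open Module

noncomputable local instance instFintypeHom {F M N : Type*} [Field F] [AddCommGroup M]
    [AddCommGroup N] [Module F M] [Module F N] [Finite M] [Finite N] : Fintype (M →ₗ[F] N) :=
  haveI : Finite (M →ₗ[F] N) :=
    Finite.of_injective (fun f : M →ₗ[F] N => (f : M → N)) DFunLike.coe_injective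
  Fintype.ofFinite _

open Classical in
/-- the coefficients of the inverse of the complement incidence matrix -/
noncomputable def cf (F : Type*) [Field F] [Finite F] (m : ℕ) : ℚ :=
  if m = 0 then 1 else
    - ∑ A : {A : (Fin m → F) →ₗ[F] (Fin m → F) // A ≠ 0}, cf F (finrank F (LinearMap.ker A.1))
termination_by m
decreasing_by
  have h1 : LinearMap.ker A.1 ≠ ⊤ := fun h => A.2 (LinearMap.ker_eq_top.1 h)
  have h2 := Submodule.finrank_lt (lt_top_iff_ne_top.2 h1).ne
  simpa using h2

lemma cf_zero (F : Type*) [Field F] [Finite F] : cf F 0 = 1 := by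
  rw [cf, if_pos rfl]

lemma cf_sum (F : Type*) [Field F] [Finite F] (m : ℕ) (hm : m ≠ 0) :
    ∑ A : (Fin m → F) →ₗ[F] (Fin m → F), cf F (finrank F (LinearMap.ker A)) = 0 := by
  classical
  rw [Fintype.sum_eq_add_sum_subtype_ne _ (0 : (Fin m → F) →ₗ[F] (Fin m → F))]
  rw [LinearMap.ker_zero, finrank_top, finrank_fin_fun, cf, if_neg hm, neg_add_eq_zero]

lemma cf_sum' {F M N : Type*} [Field F] [Finite F] [AddCommGroup M]
    [AddCommGroup N] [Module F M] [Module F N] [Finite M] [Finite N] (m : ℕ) (hm : m ≠ 0)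
    (h1 : finrank F M = m) (h2 : finrank F N = m) :
    ∑ A : M →ₗ[F] N, cf F (finrank F (LinearMap.ker A)) = 0 := by
  have : FiniteDimensional F M := Module.Finite.of_finite
  have : FiniteDimensional F N := Module.Finite.of_finite
  let e1 : M ≃ₗ[F] (Fin m → F) := LinearEquiv.ofFinrankEq _ _ (by rw [h1, finrank_fin_fun])
  let e2 : N ≃ₗ[F] (Fin m → F) := LinearEquiv.ofFinrankEq _ _ (by rw [h2, finrank_fin_fun])
  rw [← cf_sum F m hm]
  refine Fintype.sum_equiv (LinearEquiv.arrowCongr e1 e2).toEquiv _ _ (fun A => ?_)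
  congr 1
  have h3 : LinearMap.ker ((LinearEquiv.arrowCongr e1 e2) A) =
      (LinearMap.ker A).map (e1 : M →ₗ[F] (Fin m → F)) := by
    ext x
    constructor
    · intro hx
      refine ⟨e1.symm x, ?_, by simp⟩
      have h4 : e2 (A (e1.symm x)) = 0 := hx
      exact (LinearEquiv.map_eq_zero_iff e2).1 h4
    · rintro ⟨y, hy, rfl⟩
      have h4 : A y = 0 := hy
      change e2 (A (e1.symm (e1 y))) = 0
      rw [LinearEquiv.symm_apply_apply, h4, map_zero]
  have h5 : (LinearEquiv.arrowCongr e1 e2).toEquiv A = (LinearEquiv.arrowCongr e1 e2) A := rfl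
  rw [h5, h3, LinearEquiv.finrank_map_eq]

variable {F V : Type*} [Field F] [AddCommGroup V] [Module F V]

/-- the projections onto `U` -/
def PP (U : Submodule F V) : Type _ := {p : V →ₗ[F] U // ∀ x : U, p x = x}

/-- the induced map `U' / (U' ⊓ U) → U / (U ⊓ U')` -/
noncomputable def bar (U U' : Submodule F V) (p : PP U) :
    (U' ⧸ (U.comap U'.subtype)) →ₗ[F] (U ⧸ (U'.comap U.subtype)) :=
  (U.comap U'.subtype).mapQ (U'.comap U.subtype) (p.1 ∘ₗ U'.subtype) (by
    intro x hx
    have h1 : (x : V) ∈ U := hx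
    have h2 := p.2 ⟨x, h1⟩
    change ((p.1 (x : V) : U) : V) ∈ U'
    simp only at h2
    rw [h2]
    exact x.2)

lemma bar_mk (U U' : Submodule F V) (p : PP U) (x : U') :
    bar U U' p (Submodule.Quotient.mk x) = Submodule.Quotient.mk (p.1 x) := rfl

variable [FiniteDimensional F V]

lemma bar_ker (U U' : Submodule F V) (p : PP U) :
    finrank F (LinearMap.ker p.1 ⊓ U' : Submodule F V) = finrank F (LinearMap.ker (bar U U' p)) := by
  let N : (LinearMap.ker p.1 ⊓ U' : Submodule F V) →ₗ[F] (U' ⧸ (U.comap U'.subtype)) :=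
    (U.comap U'.subtype).mkQ ∘ₗ Submodule.inclusion inf_le_right
  have hN : ∀ x : (LinearMap.ker p.1 ⊓ U' : Submodule F V),
      N x = Submodule.Quotient.mk ⟨(x : V), x.2.2⟩ := fun x => rfl
  have hinj : Function.Injective N := by
    rw [← LinearMap.ker_eq_bot, LinearMap.ker_eq_bot']
    intro x hx
    rw [hN, Submodule.Quotient.mk_eq_zero] at hx
    have h1 : (x : V) ∈ U := hx
    have h2 := p.2 ⟨x, h1⟩
    simp only at h2
    have h3 : p.1 (x : V) = 0 := x.2.1
    rw [h3] at h2
    apply Subtype.ext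
    exact (congrArg Subtype.val h2).symm
  have hr : LinearMap.range N = LinearMap.ker (bar U U' p) := by
    apply le_antisymm
    · rintro _ ⟨x, rfl⟩
      rw [LinearMap.mem_ker, hN, bar_mk]
      have h3 : p.1 (x : V) = 0 := x.2.1
      simp only [h3]
      rfl
    · intro y hy
      obtain ⟨u, rfl⟩ := Submodule.Quotient.mk_surjective _ y
      rw [LinearMap.mem_ker, bar_mk, Submodule.Quotient.mk_eq_zero] at hy
      have h1 : ((p.1 (u : V) : U) : V) ∈ U' := hy
      have h2 : p.1 ((u : V) - ((p.1 (u : V) : U) : V)) = 0 := by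
        rw [map_sub, p.2, sub_self]
      refine ⟨⟨(u : V) - ((p.1 (u : V) : U) : V), h2, U'.sub_mem u.2 h1⟩, ?_⟩
      rw [hN, Submodule.Quotient.eq]
      change ((u : V) - ((p.1 (u : V) : U) : V)) - (u : V) ∈ U
      rw [sub_sub_cancel_left]
      exact U.neg_mem (p.1 (u : V)).2
  rw [← hr, LinearMap.finrank_range_of_inj hinj]

/-- translations of the set of projections that act on `bar` by translations -/
lemma exists_shift (U U' : Submodule F V) :
    ∃ T : ((U' ⧸ (U.comap U'.subtype)) →ₗ[F] (U ⧸ (U'.comap U.subtype))) → (PP U ≃ PP U),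
      ∀ A p, bar U U' (T A p) = bar U U' p + A := by
  obtain ⟨σ, hσ⟩ := (U'.comap U.subtype).mkQ.exists_rightInverse_of_surjective
    (Submodule.range_mkQ _)
  -- the map `U' / I → V / U`
  let r : U' →ₗ[F] (V ⧸ U) := U.mkQ ∘ₗ U'.subtype
  have hr : LinearMap.ker r = U.comap U'.subtype := by
    rw [LinearMap.ker_comp, Submodule.ker_mkQ]
  let j : (U' ⧸ (U.comap U'.subtype)) →ₗ[F] (V ⧸ U) :=
    (U.comap U'.subtype).liftQ r hr.ge
  have hj : LinearMap.ker j = ⊥ := Submodule.ker_liftQ_eq_bot _ _ _ hr.le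
  obtain ⟨ℓ, hℓ⟩ := j.exists_leftInverse_of_injective hj
  let τ : V →ₗ[F] (U' ⧸ (U.comap U'.subtype)) := ℓ ∘ₗ U.mkQ
  have hτ0 : ∀ u ∈ U, τ u = 0 := by
    intro u hu
    have : U.mkQ u = 0 := by
      rw [Submodule.mkQ_apply, Submodule.Quotient.mk_eq_zero]; exact hu
    change ℓ (U.mkQ u) = 0
    rw [this, map_zero]
  have hτ1 : ∀ u : U', τ u = Submodule.Quotient.mk u := by
    intro u
    exact LinearMap.congr_fun hℓ (Submodule.Quotient.mk u)
  have hL : ∀ (A : (U' ⧸ (U.comap U'.subtype)) →ₗ[F] (U ⧸ (U'.comap U.subtype))) (x : U),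
      (σ ∘ₗ A ∘ₗ τ) (x : V) = 0 := by
    intro A x
    change σ (A (τ x)) = 0
    rw [hτ0 x x.2, map_zero, map_zero]
  refine ⟨fun A => ⟨fun p => ⟨p.1 + σ ∘ₗ A ∘ₗ τ, fun x => ?_⟩,
    fun p => ⟨p.1 - σ ∘ₗ A ∘ₗ τ, fun x => ?_⟩, fun p => ?_, fun p => ?_⟩, fun A p => ?_⟩
  · rw [LinearMap.add_apply, hL, add_zero, p.2]
  · rw [LinearMap.sub_apply, hL, sub_zero, p.2]
  · exact Subtype.ext (add_sub_cancel_right _ _)
  · exact Subtype.ext (sub_add_cancel _ _)
  · apply LinearMap.ext
    intro y
    obtain ⟨u, rfl⟩ := Submodule.Quotient.mk_surjective _ y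
    rw [LinearMap.add_apply, bar_mk, bar_mk]
    change Submodule.Quotient.mk (p.1 (u : V) + σ (A (τ u))) = _
    rw [Submodule.Quotient.mk_add, hτ1]
    congr 1
    exact LinearMap.congr_fun hσ (A (Submodule.Quotient.mk u))

lemma finrank_quot (U U' : Submodule F V) :
    finrank F (U ⧸ (U'.comap U.subtype)) + finrank F (U ⊓ U' : Submodule F V) = finrank F U := by
  have h1 := Submodule.finrank_quotient_add_finrank (U'.comap U.subtype)
  have h2 : finrank F (U'.comap U.subtype) = finrank F (U ⊓ U' : Submodule F V) := by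
    have h3 : (U'.comap U.subtype).map U.subtype = U ⊓ U' := Submodule.map_comap_subtype U U'
    rw [← h3]
    exact (LinearEquiv.finrank_eq
      (Submodule.equivMapOfInjective U.subtype U.injective_subtype _))
  rw [← h2]
  exact h1

variable [Finite F]

lemma finite_V (F V : Type*) [Field F] [AddCommGroup V] [Module F V] [FiniteDimensional F V]
    [Finite F] : Finite V := Module.finite_of_finite F

noncomputable local instance instPP (U : Submodule F V) : Fintype (PP U) :=
  haveI : Finite V := finite_V F V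
  haveI : Finite (V →ₗ[F] U) :=
    Finite.of_injective (fun f : V →ₗ[F] U => (f : V → U)) DFunLike.coe_injective
  haveI : Finite (PP U) := Subtype.finite
  Fintype.ofFinite _

/-- orthogonality -/
lemma orth (U U' : Submodule F V) (hne : U ≠ U') (hd : finrank F U = finrank F U') :
    ∑ p : PP U, cf F (finrank F (LinearMap.ker p.1 ⊓ U' : Submodule F V)) = 0 := by
  have : Finite V := finite_V F V
  simp_rw [bar_ker U U']
  obtain ⟨T, hT⟩ := exists_shift U U'
  have : Finite (U' ⧸ (U.comap U'.subtype)) := Module.finite_of_finite F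
  have : Finite (U ⧸ (U'.comap U.subtype)) := Module.finite_of_finite F
  have h1 := finrank_quot U U'
  have h2 := finrank_quot U' U
  have h3 : finrank F (U' ⊓ U : Submodule F V) = finrank F (U ⊓ U' : Submodule F V) := by
    rw [inf_comm]
  have hm : finrank F (U ⧸ (U'.comap U.subtype)) ≠ 0 := by
    intro h0
    apply hne
    have h4 : U ⊓ U' = U := by
      apply Submodule.eq_of_le_of_finrank_eq inf_le_left
      omega
    apply Submodule.eq_of_le_of_finrank_eq _ hd
    rw [← h4]
    exact inf_le_right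
  have hsum : ∑ A : (U' ⧸ (U.comap U'.subtype)) →ₗ[F] (U ⧸ (U'.comap U.subtype)),
      cf F (finrank F (LinearMap.ker A)) = 0 :=
    cf_sum' (finrank F (U ⧸ (U'.comap U.subtype))) hm (by omega) rfl
  have hS : ∀ A : (U' ⧸ (U.comap U'.subtype)) →ₗ[F] (U ⧸ (U'.comap U.subtype)),
      ∑ p : PP U, cf F (finrank F (LinearMap.ker (bar U U' p))) =
        ∑ p : PP U, cf F (finrank F (LinearMap.ker (bar U U' p + A))) := by
    intro A
    rw [← Equiv.sum_comp (T A)]
    refine Finset.sum_congr rfl (fun p _ => ?_)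
    rw [hT]
  have hSS : ∑ A : (U' ⧸ (U.comap U'.subtype)) →ₗ[F] (U ⧸ (U'.comap U.subtype)),
      ∑ p : PP U, cf F (finrank F (LinearMap.ker (bar U U' p))) = 0 := by
    rw [Finset.sum_congr rfl (fun A _ => hS A), Finset.sum_comm]
    refine Finset.sum_eq_zero (fun p _ => ?_)
    rw [← hsum]
    exact Equiv.sum_comp (Equiv.addLeft (bar U U' p))
      (fun A => cf F (finrank F (LinearMap.ker A)))
  rw [Finset.sum_const, Finset.card_univ, nsmul_eq_mul, mul_eq_zero] at hSS
  rcases hSS with h | h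
  · exfalso
    have h5 : 0 < Fintype.card
      ((U' ⧸ (U.comap U'.subtype)) →ₗ[F] (U ⧸ (U'.comap U.subtype))) := Fintype.card_pos
    have h6 : (Fintype.card
      ((U' ⧸ (U.comap U'.subtype)) →ₗ[F] (U ⧸ (U'.comap U.subtype))) : ℚ) ≠ 0 :=
      Nat.cast_ne_zero.2 h5.ne'
    exact h6 h
  · exact h

noncomputable local instance instSub : Fintype (Submodule F V) :=
  haveI : Finite V := finite_V F V
  haveI : Finite (Submodule F V) :=
    Finite.of_injective (fun U : Submodule F V => (U : Set V)) SetLike.coe_injective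
  Fintype.ofFinite _

lemma map_inv (g : V ≃ₗ[F] V) (U : Submodule F V) :
    (U.map (g : V →ₗ[F] V)).map ((g⁻¹ : V ≃ₗ[F] V) : V →ₗ[F] V) = U := by
  rw [← Submodule.map_comp]
  have h3 : ((g⁻¹ : V ≃ₗ[F] V) : V →ₗ[F] V) ∘ₗ (g : V →ₗ[F] V) = LinearMap.id := by
    ext v
    change (g⁻¹ * g) v = v
    rw [inv_mul_cancel]; rfl
  rw [h3, Submodule.map_id]

/-- **Finite fields**: a group that is transitive on the subspaces of dimension `l` is
transitive on the subspaces of complementary dimension -/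
theorem trans_compl {G : Subgroup (V ≃ₗ[F] V)} {k l : ℕ} (hkl : k + l = finrank F V)
    (hl : Trans G l) : Trans G k := by
  classical
  intro U1 U2 hU1 hU2
  let f : Submodule F V → ℚ := fun U' =>
    if ∃ g ∈ G, U1.map (g : V →ₗ[F] V) = U' then 1 else 0
  have hfg : ∀ g ∈ G, ∀ U' : Submodule F V, f (U'.map (g : V →ₗ[F] V)) = f U' := by
    intro g hg U'
    have h1 : (∃ g' ∈ G, U1.map (g' : V →ₗ[F] V) = U'.map (g : V →ₗ[F] V)) ↔
        ∃ g' ∈ G, U1.map (g' : V →ₗ[F] V) = U' := by
      constructor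
      · rintro ⟨g', hg', h⟩
        refine ⟨g⁻¹ * g', G.mul_mem (G.inv_mem hg) hg', ?_⟩
        rw [coe_mul', Module.End.mul_eq_comp, Submodule.map_comp, h, map_inv]
      · rintro ⟨g', hg', h⟩
        refine ⟨g * g', G.mul_mem hg hg', ?_⟩
        rw [coe_mul', Module.End.mul_eq_comp, Submodule.map_comp, h]
    simp only [f, h1]
  let h : Submodule F V → ℚ := fun W => ∑ U' : Submodule F V,
    cf F (finrank F (W ⊓ U' : Submodule F V)) * f U'
  have hh : ∀ g ∈ G, ∀ W : Submodule F V, h (W.map (g : V →ₗ[F] V)) = h W := by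
    intro g hg W
    change ∑ U' : Submodule F V, cf F (finrank F (W.map (g : V →ₗ[F] V) ⊓ U' : Submodule F V)) *
      f U' = ∑ U' : Submodule F V, cf F (finrank F (W ⊓ U' : Submodule F V)) * f U'
    rw [← Equiv.sum_comp (Submodule.orderIsoMapComap g).toEquiv]
    refine Finset.sum_congr rfl (fun U' _ => ?_)
    have e1 : (Submodule.orderIsoMapComap g).toEquiv U' = U'.map (g : V →ₗ[F] V) := rfl
    rw [e1, hfg g hg, ← Submodule.map_inf _ g.injective, LinearEquiv.finrank_map_eq]
  have hsum : ∀ U : Submodule F V, finrank F U = k →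
      ∑ p : PP U, h (LinearMap.ker p.1) = (Fintype.card (PP U) : ℚ) * f U := by
    intro U hU
    change ∑ p : PP U, ∑ U' : Submodule F V,
      cf F (finrank F (LinearMap.ker p.1 ⊓ U' : Submodule F V)) * f U' = _
    rw [Finset.sum_comm, Finset.sum_eq_single U]
    · have h1 : ∀ p : PP U, cf F (finrank F (LinearMap.ker p.1 ⊓ U : Submodule F V)) * f U =
          f U := by
        intro p
        have h2 := (LinearMap.isCompl_of_proj p.2).symm.inf_eq_bot
        rw [h2, finrank_bot, cf_zero, one_mul]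
      rw [Finset.sum_congr rfl (fun p _ => h1 p), Finset.sum_const, Finset.card_univ,
        nsmul_eq_mul]
    · intro U' _ hne
      rw [← Finset.sum_mul]
      by_cases hf : f U' = 0
      · rw [hf, mul_zero]
      · have h3 : ∃ g ∈ G, U1.map (g : V →ₗ[F] V) = U' := by
          by_contra hcon
          exact hf (if_neg hcon)
        obtain ⟨g, _, hg⟩ := h3
        have h4 : finrank F U' = k := by
          rw [← hg, LinearEquiv.finrank_map_eq, hU1]
        rw [orth U U' (Ne.symm hne) (by rw [hU, h4]), zero_mul]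
    · intro hU
      exact absurd (Finset.mem_univ _) hU
  have hcompl : ∀ U : Submodule F V, finrank F U = k → ∀ p : PP U,
      finrank F (LinearMap.ker p.1) = l := by
    intro U hU p
    have h1 := Submodule.finrank_add_eq_of_isCompl (LinearMap.isCompl_of_proj p.2)
    omega
  have hne : ∀ U : Submodule F V, Nonempty (PP U) := by
    intro U
    obtain ⟨q, hq⟩ := U.subtype.exists_leftInverse_of_injective
      (LinearMap.ker_eq_bot.2 U.injective_subtype)
    exact ⟨⟨q, fun x => LinearMap.congr_fun hq x⟩⟩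
  obtain ⟨p1⟩ := hne U1
  have hconst : ∀ U : Submodule F V, finrank F U = k → f U = h (LinearMap.ker p1.1) := by
    intro U hU
    have h1 := hsum U hU
    have h2 : ∀ p : PP U, h (LinearMap.ker p.1) = h (LinearMap.ker p1.1) := by
      intro p
      obtain ⟨g, hg, hgW⟩ := hl (LinearMap.ker p1.1) (LinearMap.ker p.1) (hcompl U1 hU1 p1)
        (hcompl U hU p)
      rw [← hgW, hh g hg]
    rw [Finset.sum_congr rfl (fun p _ => h2 p), Finset.sum_const, Finset.card_univ,
      nsmul_eq_mul] at h1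
    have h3 : (Fintype.card (PP U) : ℚ) ≠ 0 := by
      have := hne U
      exact Nat.cast_ne_zero.2 Fintype.card_ne_zero
    exact (mul_left_cancel₀ h3 h1).symm
  have h1 : f U1 = 1 := if_pos ⟨1, G.one_mem, by rw [coe_one', Module.End.one_eq_id, Submodule.map_id]⟩
  have h2 : f U2 = 1 := by rw [hconst U2 hU2, ← hconst U1 hU1, h1]
  by_contra hcon
  have h3 : f U2 = 0 := if_neg hcon
  rw [h3] at h2
  exact zero_ne_one h2

variable {a : Module.End F V} {G : Subgroup (V ≃ₗ[F] V)}

theorem finite_iff_range (ha : ¬ IsUnit a) :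
    IsAutPair a G ↔ Trans G (finrank F (LinearMap.range a)) := by
  have h1 := LinearMap.finrank_range_add_finrank_ker a
  rw [finite_iff ha]
  exact ⟨fun h => h.1, fun h => ⟨h, trans_compl (by omega) h⟩⟩

theorem finite_iff_ker (ha : ¬ IsUnit a) :
    IsAutPair a G ↔ Trans G (finrank F (LinearMap.ker a)) := by
  have h1 := LinearMap.finrank_range_add_finrank_ker a
  rw [finite_iff ha]
  exact ⟨fun h => h.2, fun h => ⟨trans_compl (by omega) h, h⟩⟩

end Pool.Agent.Helper91.AP
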