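import Mathlib
import Pool.Agent.Helper91.AP.Main

/-!
# Fields that are algebraic over a finite field
-/

set_option autoImplicit false

namespace Pool.Agent.Helper91.AP

open Module

lemma pow_eq_one {p : ℕ} [Fact p.Prime] {F B : Type*} [Field F] [Algebra (ZMod p) F]
    [Algebra.IsAlgebraic (ZMod p) F] [Ring B] [Algebra F B] [Algebra (ZMod p) B]
    [IsScalarTower (ZMod p) F B] [Module.Finite F B] (x : B) :
    ∃ m n : ℕ, m < n ∧ x ^ m = x ^ n := by
  have h1 : IsIntegral F x := Algebra.IsIntegral.isIntegral x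
  have h2 : IsIntegral (ZMod p) x := isIntegral_trans (A := F) x h1
  have h3 : (Subalgebra.toSubmodule (Algebra.adjoin (ZMod p) {x})).FG :=
    h2.fg_adjoin_singleton
  have h4 : Module.Finite (ZMod p) (Algebra.adjoin (ZMod p) {x}) := Module.Finite.iff_fg.2 h3
  have h5 : Finite (Algebra.adjoin (ZMod p) {x}) := Module.finite_of_finite (ZMod p)
  obtain ⟨m, n, hmn, h6⟩ := Finite.exists_ne_map_eq_of_infinite
    (fun n : ℕ => (⟨x ^ n, Subalgebra.pow_mem _ (Algebra.self_mem_adjoin_singleton _ x) n⟩ :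
      Algebra.adjoin (ZMod p) {x}))
  have h7 : x ^ m = x ^ n := congrArg Subtype.val h6
  rcases lt_or_gt_of_ne hmn with h | h
  · exact ⟨m, n, h, h7⟩
  · exact ⟨n, m, h, h7.symm⟩

lemma inv_mem_powers {p : ℕ} [Fact p.Prime] {F W : Type*} [Field F] [Algebra (ZMod p) F]
    [Algebra.IsAlgebraic (ZMod p) F] [AddCommGroup W] [Module F W] [FiniteDimensional F W]
    (α : W ≃ₗ[F] W) : α⁻¹ ∈ Submonoid.powers α := by
  letI : Module (ZMod p) W := Module.compHom W (algebraMap (ZMod p) F)
  haveI : IsScalarTower (ZMod p) F W := ⟨fun r s w => by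
    change (r • s) • w = algebraMap (ZMod p) F r • (s • w)
    rw [Algebra.smul_def, mul_smul]⟩
  obtain ⟨m, n, hmn, h⟩ := pow_eq_one (p := p) (F := F) (B := Module.End F W) (α : W →ₗ[F] W)
  have hc : ∀ k : ℕ, ((α ^ k : W ≃ₗ[F] W) : Module.End F W) = (α : W →ₗ[F] W) ^ k := by
    intro k
    induction k with
    | zero => rfl
    | succ k ih =>
      rw [pow_succ, pow_succ, ← ih]
      rfl
  have h1 : α ^ m = α ^ n := by
    apply LinearEquiv.toLinearMap_injective
    rw [hc, hc, h]
  have h2 : α ^ (n - m) = 1 := by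
    have h3 : α ^ m * α ^ (n - m) = α ^ m * 1 := by
      rw [← pow_add, mul_one, h1]
      congr 1
      omega
    exact mul_left_cancel h3
  refine ⟨n - m - 1, ?_⟩
  have h4 : α ^ (n - m - 1) * α = 1 := by
    rw [← pow_succ, ← h2]
    congr 1
    omega
  exact eq_inv_of_mul_eq_one_left h4

variable {F V : Type*} [Field F] [AddCommGroup V] [Module F V] [FiniteDimensional F V]
variable {a : Module.End F V} {G : Subgroup (V ≃ₗ[F] V)}

theorem alg_iff (p : ℕ) [Fact p.Prime] [Algebra (ZMod p) F] [Algebra.IsAlgebraic (ZMod p) F]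
    (ha : ¬ IsUnit a) : IsAutPair a G ↔
    Trans G (finrank F (LinearMap.range a)) ∧ Trans G (finrank F (LinearMap.ker a)) := by
  refine ⟨fun h => ⟨nec_range ha h, nec_ker ha h⟩, fun h => suff ha h.1 h.2 ?_⟩
  intro α hα
  obtain ⟨k, hk⟩ := inv_mem_powers (p := p) α
  rw [← hk]
  exact Submonoid.pow_mem _ (Submonoid.subset_closure hα) k

end Pool.Agent.Helper91.AP
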